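import Pool.Agent.R855.Nil.Label

/-!
# MP_2dcdad_ag: several limit fixed points on a geometrically irreducible subvariety

For every finite field `F` and every `N` there are a regular self-map `T` of affine `5`-space over
`F` with finitely many geometric fixed points, and a line `Y`, such that every geometric point of
`Y` is sent to a fixed point by some iterate, no single iterate works for all points of `Y`, and
for at least `N` fixed points `P` the set of points of `Y` which are sent to `P` is Zariski dense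
in `Y`.
-/

namespace Pool.Agent.Results.MP_2dcdad_ag.SeveralLimits

open MvPolynomial R855.Nil

/-- The closed subvariety of affine space cut out by `I` is geometrically irreducible: the
polynomials over the algebraic closure which vanish at all its geometric points form a prime
ideal. -/
def GeomIrreducible {F : Type} [Field F] {N : ℕ} (I : Ideal (MvPolynomial (Fin N) F)) : Prop :=
  (vanishingIdeal (AlgebraicClosure F) (pts I)).IsPrime

/-- The set of geometric points of the closed subvariety `V(I)` which are sent to `P` by some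
iterate of `T`. -/
def basin {F : Type} [Field F] {N : ℕ} (T : Fin N → MvPolynomial (Fin N) F)
    (I : Ideal (MvPolynomial (Fin N) F)) (P : Fin N → AlgebraicClosure F) :
    Set (Fin N → AlgebraicClosure F) :=
  {y | y ∈ pts I ∧ ∃ k : ℕ, 1 ≤ k ∧ (act T)^[k] y = P}

/-- A set of geometric points of `V(I)` is Zariski dense in `V(I)` over the algebraic closure: a
polynomial over the algebraic closure vanishing on the set vanishes at all geometric points of
`V(I)`. -/
def DenseIn {F : Type} [Field F] {N : ℕ} (I : Ideal (MvPolynomial (Fin N) F))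
    (S : Set (Fin N → AlgebraicClosure F)) : Prop :=
  ∀ f : MvPolynomial (Fin N) (AlgebraicClosure F),
    (∀ y ∈ S, aeval y f = 0) → ∀ y ∈ pts I, aeval y f = 0

section

variable {F : Type} [Field F]

/-- the self-map of affine `5`-space -/
noncomputable def T5 (F : Type) [Field F] (Q : ℕ) : Fin 5 → MvPolynomial (Fin 5) F :=
  t5 Q (X 0) (X 1) (X 2) (X 3) (X 4)

/-- the ideal of the line `Y` -/
noncomputable def LL (F : Type) [Field F] : Ideal (MvPolynomial (Fin 5) F) :=
  Ideal.span {X 1 - 1, X 2 - 1, X 3, X 4}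

theorem map_Hp {R S : Type} [CommRing R] [CommRing S] (φ : R →+* S) (Q : ℕ) (x z f : R) :
    φ (Hp Q x z f) = Hp Q (φ x) (φ z) (φ f) := by
  simp only [Hp, map_add, map_mul, map_pow]

theorem map_Dp {R S : Type} [CommRing R] [CommRing S] (φ : R →+* S) (Q : ℕ) (x z b f : R) :
    φ (Dp Q x z b f) = Dp Q (φ x) (φ z) (φ b) (φ f) := by
  simp only [Dp, map_sub, map_mul, map_pow, map_Hp]

theorem map_t5 {R S : Type} [CommRing R] [CommRing S] (φ : R →+* S) (Q : ℕ)
    (x z b f w : R) (i : Fin 5) :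
    φ (t5 Q x z b f w i) = t5 Q (φ x) (φ z) (φ b) (φ f) (φ w) i := by
  fin_cases i <;> simp [t5, map_Hp, map_Dp]

theorem act_T5 (Q : ℕ) (y : Fin 5 → AlgebraicClosure F) :
    act (T5 F Q) y = t5 Q (y 0) (y 1) (y 2) (y 3) (y 4) := by
  funext i
  simp only [act, T5]
  have h := map_t5 ((aeval y : MvPolynomial (Fin 5) F →ₐ[F] AlgebraicClosure F) :
    MvPolynomial (Fin 5) F →+* AlgebraicClosure F) Q (X 0) (X 1) (X 2) (X 3) (X 4) i
  simpa using h

theorem act_P5 {Q : ℕ} (hQ : 2 ≤ Q) (c f B z w : AlgebraicClosure F) :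
    act (T5 F Q) (P5 c f B z w) =
      P5 (c ^ Q ^ 4) ((c + f ^ Q) ^ Q ^ 4)
        (B ^ Q * ((c + f ^ Q) ^ Q ^ 5 - (c + f ^ Q) ^ Q ^ 4))
        (z ^ Q ^ 8 * (B ^ Q * ((c + f ^ Q) ^ Q ^ 5 - (c + f ^ Q) ^ Q ^ 4)))
        (w ^ Q + z ^ (Q ^ 14 - 1) * ((c + f ^ Q) ^ Q ^ 4 - w ^ Q)) := by
  rw [act_T5, ← t5_P5 hQ]
  rfl

theorem act_zero {Q : ℕ} (hQ : 2 ≤ Q) (y : Fin 5 → AlgebraicClosure F) (h : y 1 = 0) :
    act (T5 F Q) y = P5 0 0 0 0 (y 4 ^ Q) := by
  rw [act_T5, h, t5_zero hQ]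

theorem mem_LL {y : Fin 5 → AlgebraicClosure F} :
    y ∈ pts (LL F) ↔ ∃ c, y = P5 c 0 1 1 0 := by
  rw [pts, LL, zeroLocus_span, Set.mem_ofPred_eq]
  constructor
  · intro h
    have h1 := h (X 1 - 1) (by simp)
    have h2 := h (X 2 - 1) (by simp)
    have h3 := h (X 3) (by simp)
    have h4 := h (X 4) (by simp)
    simp only [map_sub, map_one, aeval_X, sub_eq_zero] at h1 h2 h3 h4
    refine ⟨y 0, ?_⟩
    funext i
    fin_cases i <;> simp [P5, h1, h2, h3, h4]
  · rintro ⟨c, rfl⟩ p hp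
    simp only [Set.mem_insert_iff, Set.mem_singleton_iff] at hp
    rcases hp with rfl | rfl | rfl | rfl <;> simp [P5]

/-- the state at time `n` of the orbit of the point with parameter `c` -/
noncomputable def st (Q : ℕ) (c : AlgebraicClosure F) (n : ℕ) (w : AlgebraicClosure F) :
    Fin 5 → AlgebraicClosure F :=
  P5 (c ^ Q ^ (4 * n)) (tr Q c n ^ Q ^ (4 * n)) (BB Q c n ^ Q ^ n) (AA Q c n ^ Q ^ n) w

theorem act_st {Q : ℕ} (h : Fr (AlgebraicClosure F) Q) (c : AlgebraicClosure F) (n : ℕ)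
    (w : AlgebraicClosure F) :
    act (T5 F Q) (st Q c n w) = st Q c (n + 1)
      (w ^ Q + (AA Q c n ^ Q ^ n) ^ (Q ^ 14 - 1) *
        (tr Q c (n + 1) ^ Q ^ (4 * (n + 1)) - w ^ Q)) := by
  simp only [st]
  rw [act_P5 h.two_le]
  have e0 : ∀ x : AlgebraicClosure F, x ^ Q = x ^ Q ^ 1 := fun x => by rw [pow_one]
  have e1 : (c ^ Q ^ (4 * n)) ^ Q ^ 4 = c ^ Q ^ (4 * (n + 1)) := by
    rw [pp]; congr 2
  have e2 : c ^ Q ^ (4 * n) + (tr Q c n ^ Q ^ (4 * n)) ^ Q = tr Q c (n + 1) ^ Q ^ (4 * n) := by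
    rw [tr_succ h, h.add, e0 (tr Q c n ^ Q ^ (4 * n)), e0 (tr Q c n), pp, pp, add_comm 1]
  have e3 : (tr Q c (n + 1) ^ Q ^ (4 * n)) ^ Q ^ 4 = tr Q c (n + 1) ^ Q ^ (4 * (n + 1)) := by
    rw [pp]; congr 2
  have e4 : (tr Q c (n + 1) ^ Q ^ (4 * n)) ^ Q ^ 5 =
      (tr Q c (n + 1) ^ Q) ^ Q ^ (4 * (n + 1)) := by
    rw [pp, e0 (tr Q c (n + 1)), pp]; congr 2; ring
  have e5 : (BB Q c n ^ Q ^ n) ^ Q * ((tr Q c (n + 1) ^ Q) ^ Q ^ (4 * (n + 1)) -
      tr Q c (n + 1) ^ Q ^ (4 * (n + 1))) = BB Q c (n + 1) ^ Q ^ (n + 1) := by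
    rw [← h.sub, tr_sub h, BB_succ, mul_pow, e0 (BB Q c n ^ Q ^ n), pp]
    congr 1
    simp only [gg]
    have e6 : c ^ Q ^ (4 * (n + 1) + 3 * 0) - c ^ Q ^ (4 * 0 + 3 * (n + 1)) =
        (c ^ Q ^ (n + 1) - c) ^ Q ^ (3 * (n + 1)) := by
      rw [h.sub, pp]
      congr 3
      · ring
      · ring
    rw [e6, pp]
    congr 2
    ring
  have e7 : (AA Q c n ^ Q ^ n) ^ Q ^ 8 * BB Q c (n + 1) ^ Q ^ (n + 1) =
      AA Q c (n + 1) ^ Q ^ (n + 1) := by
    rw [AA_succ h, mul_pow, pp, pp]
    congr 3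
    ring
  rw [e1, e2, e3, e4, e5, e7]

theorem iter_st {Q : ℕ} (h : Fr (AlgebraicClosure F) Q) (c : AlgebraicClosure F) (n : ℕ) :
    ∃ w, (act (T5 F Q))^[n] (P5 c 0 1 1 0) = st Q c n w := by
  induction n with
  | zero =>
    refine ⟨0, ?_⟩
    simp [st, tr, AA, BB]
  | succ n ih =>
    obtain ⟨w, hw⟩ := ih
    rw [Function.iterate_succ_apply', hw, act_st h]
    exact ⟨_, rfl⟩

theorem tr_fixed {K : Type} [Field K] {Q : ℕ} (h : Fr K Q) {c : K} {m : ℕ}
    (hc : c ^ Q ^ m = c) : tr Q c m ^ Q = tr Q c m := by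
  have h1 := tr_sub h c m
  rw [hc, sub_self] at h1
  exact sub_eq_zero.1 h1

/-- **Collapse.** The point with parameter `c` of exact period `m` is sent by the `m`-th iterate
to the point `(0,0,0,0,u)`, `u` the trace of `c`. -/
theorem collapse {Q : ℕ} (h : Fr (AlgebraicClosure F) Q) {c : AlgebraicClosure F} {m : ℕ}
    (hm : ExactPeriod Q c m) :
    (act (T5 F Q))^[m] (P5 c 0 1 1 0) = P5 0 0 0 0 (tr Q c m) := by
  obtain ⟨hm1, hm2, hm3⟩ := hm
  obtain ⟨n, rfl⟩ : ∃ n, m = n + 1 := ⟨m - 1, by omega⟩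
  obtain ⟨w, hw⟩ := iter_st h c n
  have hA : (AA Q c n ^ Q ^ n) ^ (Q ^ 14 - 1) = 1 :=
    AA_pow_eq_one h hm2 (fun i h1 h2 => hm3 i h1 (by omega)) n
  rw [Function.iterate_succ_apply', hw, act_st h, hA, one_mul, add_sub_cancel]
  have ht : tr Q c (n + 1) ^ Q ^ (4 * (n + 1)) = tr Q c (n + 1) := by
    have h1 := tr_fixed h hm2
    have h2 := Fr.per_mul (Q := Q) (c := tr Q c (n + 1)) (m := 1) (by rw [pow_one]; exact h1)
      (4 * (n + 1))
    rw [one_mul] at h2
    exact h2
  have hz : AA Q c (n + 1) ^ Q ^ (n + 1) = 0 := by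
    rw [AA_succ h, BB_succ]
    have h0 : gg Q c (n + 1) 0 - gg Q c 0 (n + 1) = 0 := by
      simp only [gg]
      have a1 : c ^ Q ^ (4 * (n + 1) + 3 * 0) = c := by
        have := Fr.per_mul (Q := Q) hm2 4
        rw [mul_comm] at this
        simpa using this
      have a2 : c ^ Q ^ (4 * 0 + 3 * (n + 1)) = c := by
        have := Fr.per_mul (Q := Q) hm2 3
        rw [mul_comm] at this
        simpa using this
      rw [a1, a2, sub_self]
    rw [h0, mul_zero, mul_zero, h.zero]
  rw [ht]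
  simp only [st, ht]
  rw [hz]
  simp [P5]

theorem fixed_label {Q : ℕ} (hQ : 2 ≤ Q) {u : AlgebraicClosure F} (hu : u ^ Q = u) :
    act (T5 F Q) (P5 0 0 0 0 u) = P5 0 0 0 0 u := by
  rw [act_zero hQ _ (by simp [P5])]
  simp [P5, hu]

/-- parametrisation of the line -/
noncomputable def parL (K : Type) [Field K] : Fin 5 → Polynomial K :=
  P5 Polynomial.X 0 1 1 0

theorem eval_parL {K : Type} [Field K] (c : K) (f : MvPolynomial (Fin 5) K) :
    Polynomial.eval c (aeval (parL K) f) = aeval (P5 c 0 1 1 0) f := by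
  have h : Polynomial.aeval c (aeval (parL K) f) = aeval (P5 c 0 1 1 0) f := by
    rw [MvPolynomial.comp_aeval_apply]
    congr 2
    funext i
    fin_cases i <;> simp [parL, P5]
  rw [← h, Polynomial.coe_aeval_eq_eval]

theorem geomIrreducible_LL : GeomIrreducible (LL F) := by
  have hinf : Infinite (AlgebraicClosure F) := IsAlgClosed.instInfinite
  have h : vanishingIdeal (AlgebraicClosure F) (pts (LL F))
      = RingHom.ker (aeval (parL (AlgebraicClosure F)) :
        MvPolynomial (Fin 5) (AlgebraicClosure F) →ₐ[AlgebraicClosure F] _) := by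
    ext f
    rw [mem_vanishingIdeal_iff, RingHom.mem_ker]
    constructor
    · intro hf
      apply Polynomial.funext
      intro t
      rw [eval_parL, Polynomial.eval_zero]
      exact hf _ (mem_LL.2 ⟨t, rfl⟩)
    · intro hf y hy
      obtain ⟨c, rfl⟩ := mem_LL.1 hy
      rw [← eval_parL, hf, Polynomial.eval_zero]
  rw [GeomIrreducible, h]
  exact RingHom.ker_isPrime _

/-- the basin of `(0,0,0,0,u)` is dense in the line -/
theorem dense_basin {Q : ℕ} (h : Fr (AlgebraicClosure F) Q) {u : AlgebraicClosure F}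
    (hu : u ^ Q = u) : DenseIn (LL F) (basin (T5 F Q) (LL F) (P5 0 0 0 0 u)) := by
  intro f hf y hy
  obtain ⟨c, rfl⟩ := mem_LL.1 hy
  have hg : aeval (parL (AlgebraicClosure F)) f = 0 := by
    refine Polynomial.eq_zero_of_infinite_isRoot _ ((label_infinite h hu).mono ?_)
    rintro c ⟨m, hm, hmu⟩
    change Polynomial.IsRoot _ c
    rw [Polynomial.IsRoot, eval_parL]
    refine hf _ ⟨mem_LL.2 ⟨c, rfl⟩, m, hm.1, ?_⟩
    rw [collapse h hm, hmu]
  rw [← eval_parL, hg, Polynomial.eval_zero]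

/-- there are finitely many geometric fixed points -/
theorem fix_finite {Q : ℕ} (h : Fr (AlgebraicClosure F) Q) :
    {P | act (T5 F Q) P = P}.Finite := by
  have hQ := h.two_le
  have p4 : 2 ≤ Q ^ 4 := h.two_le_pow (by norm_num)
  have p5 : 2 ≤ Q ^ 5 := h.two_le_pow (by norm_num)
  have p8 : 2 ≤ Q ^ 8 := h.two_le_pow (by norm_num)
  refine Set.Finite.subset (s := (fun u => P5 0 0 0 0 u) ''
      {u : AlgebraicClosure F | u = 1 * u ^ Q + 0} ∪
      ⋃ c ∈ {c : AlgebraicClosure F | c = 1 * c ^ Q ^ 4 + 0},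
      ⋃ f ∈ {f : AlgebraicClosure F | f = 1 * f ^ Q ^ 5 + c ^ Q ^ 4},
      ⋃ B ∈ {B : AlgebraicClosure F | B = ((c + f ^ Q) ^ Q ^ 5 - (c + f ^ Q) ^ Q ^ 4) * B ^ Q + 0},
      ⋃ z ∈ {z : AlgebraicClosure F | z =
        (B ^ Q * ((c + f ^ Q) ^ Q ^ 5 - (c + f ^ Q) ^ Q ^ 4)) * z ^ Q ^ 8 + 0},
      (fun w => P5 c f B z w) '' {w : AlgebraicClosure F | w =
        (1 - z ^ (Q ^ 14 - 1)) * w ^ Q + z ^ (Q ^ 14 - 1) * (c + f ^ Q) ^ Q ^ 4}) ?_ ?_
  · refine Set.Finite.union ((fin1 hQ _ _).image _) ?_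
    refine Set.Finite.biUnion (fin1 p4 _ _) fun c _ => ?_
    refine Set.Finite.biUnion (fin1 p5 _ _) fun f _ => ?_
    refine Set.Finite.biUnion (fin1 hQ _ _) fun B _ => ?_
    refine Set.Finite.biUnion (fin1 p8 _ _) fun z _ => ?_
    exact (fin1 hQ _ _).image _
  · intro P hP
    simp only [Set.mem_ofPred_eq] at hP
    by_cases hz : P 1 = 0
    · left
      have h1 := act_zero hQ P hz
      rw [hP] at h1
      have h4 : P 4 = P 4 ^ Q := by
        conv_lhs => rw [h1]
        simp [P5]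
      refine ⟨P 4, ?_, ?_⟩
      · simp only [Set.mem_ofPred_eq]
        rw [one_mul, add_zero]
        exact h4
      · simp only
        rw [h1]
        simp only [P5, Matrix.cons_val]
    · right
      obtain ⟨c, hc⟩ : ∃ c, c = P 0 / P 1 := ⟨_, rfl⟩
      obtain ⟨B, hB⟩ : ∃ B, B = P 2 / P 1 := ⟨_, rfl⟩
      obtain ⟨f, hf⟩ : ∃ f, f = P 3 / P 1 := ⟨_, rfl⟩
      obtain ⟨z, hzz⟩ : ∃ z, z = P 1 := ⟨_, rfl⟩
      obtain ⟨w, hw⟩ : ∃ w, w = P 4 := ⟨_, rfl⟩
      have hP5 : P = P5 c f B z w := by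
        funext i
        fin_cases i
        · simp [P5, hc, hzz]; field_simp
        · simp [P5, hzz]
        · simp [P5, hB, hzz]; field_simp
        · simp [P5, hf, hzz]; field_simp
        · simp [P5, hw]
      rw [hP5, act_P5 hQ] at hP
      have hz' : z ≠ 0 := by rw [hzz]; exact hz
      have k1 := congrFun hP 1
      have k0 := congrFun hP 0
      have k2 := congrFun hP 2
      have k3 := congrFun hP 3
      have k4 := congrFun hP 4
      simp only [P5, Matrix.cons_val] at k0 k1 k2 k3 k4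
      rw [k1] at k0 k2 k3
      have l0 := mul_left_cancel₀ hz' k0
      have l2 := mul_left_cancel₀ hz' k2
      have l3 := mul_left_cancel₀ hz' k3
      simp only [Set.mem_iUnion, Set.mem_ofPred_eq]
      refine ⟨c, ?_, f, ?_, B, ?_, z, ?_, w, ?_, hP5.symm⟩
      · rw [l0]; ring
      · have e : (c + f ^ Q) ^ Q ^ 4 = c ^ Q ^ 4 + f ^ Q ^ 5 := by
          rw [h.add, ← pow_mul, ← pow_succ']
        rw [e] at l3
        conv_lhs => rw [← l3]
        ring
      · conv_lhs => rw [← l2]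
        ring
      · conv_lhs => rw [← k1]
        ring
      · simp only [Set.mem_ofPred_eq]
        conv_lhs => rw [← k4]
        ring

theorem not_uniform {Q : ℕ} (h : Fr (AlgebraicClosure F) Q) (k : ℕ) :
    ∃ y ∈ pts (LL F), act (T5 F Q) ((act (T5 F Q))^[k] y) ≠ (act (T5 F Q))^[k] y := by
  have hinf : Infinite (AlgebraicClosure F) := IsAlgClosed.instInfinite
  obtain ⟨c, hc⟩ := h.exists_good (k + 5)
  refine ⟨P5 c 0 1 1 0, mem_LL.2 ⟨c, rfl⟩, fun heq => ?_⟩
  obtain ⟨w, hw⟩ := iter_st h c k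
  rw [hw, act_st h] at heq
  have k1 := congrFun heq 1
  have k0 := congrFun heq 0
  simp only [st, P5, Matrix.cons_val] at k0 k1
  rw [k1] at k0
  have hz : AA Q c k ^ Q ^ k ≠ 0 :=
    pow_ne_zero _ (AA_ne h fun i h1 h2 => hc i h1 (by omega))
  have l0 := mul_left_cancel₀ hz k0
  have e : 4 * (k + 1) = 4 + 4 * k := by ring
  have e' : 4 * k = 0 + 4 * k := by ring
  rw [e, ← pp c 4 (4 * k)] at l0
  have l1 := h.inj _ _ _ l0
  exact hc 4 (by norm_num) (by omega) l1

end

/-- **Several limits on a geometrically irreducible subvariety.**  For every finite field `F` and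
every `N` there are a regular self-map `T` of affine `5`-space over `F` and a geometrically
irreducible closed subvariety `Y = V(I)` such that: `T` has finitely many geometric fixed points;
every geometric point of `Y` is sent to a fixed point of `T` by some iterate; for at least `N`
fixed points `P` the geometric points of `Y` sent to `P` are Zariski dense in `Y`; and no single
iterate sends all geometric points of `Y` to fixed points. -/
theorem result (F : Type) [Field F] [Finite F] (N : ℕ) :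
    ∃ (T : Fin 5 → MvPolynomial (Fin 5) F) (I : Ideal (MvPolynomial (Fin 5) F)),
      GeomIrreducible I ∧
      {P | act T P = P}.Finite ∧
      (∀ y ∈ pts I, ∃ k : ℕ, 1 ≤ k ∧ act T ((act T)^[k] y) = (act T)^[k] y) ∧
      N ≤ {P | act T P = P ∧ DenseIn I (basin T I P)}.ncard ∧
      ∀ k : ℕ, ∃ y ∈ pts I, act T ((act T)^[k] y) ≠ (act T)^[k] y := by
  classical
  have h := fr_card (F := F) N
  have hcardN : N ≤ Nat.card F ^ (N + 1) := by
    have h1 : N + 1 < Nat.card F ^ (N + 1) := Nat.lt_pow_self two_le_card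
    omega
  obtain ⟨Q, hQdef⟩ : ∃ Q, Q = Nat.card F ^ (N + 1) := ⟨_, rfl⟩
  rw [← hQdef] at h hcardN
  have hQ := h.two_le
  refine ⟨T5 F Q, LL F, geomIrreducible_LL, fix_finite h, ?_, ?_, not_uniform h⟩
  · intro y hy
    obtain ⟨c, rfl⟩ := mem_LL.1 hy
    obtain ⟨m, hm⟩ := h.exists_exactPeriod c
    refine ⟨m, hm.1, ?_⟩
    rw [collapse h hm]
    exact fixed_label hQ (tr_fixed h hm.2.1)
  · obtain ⟨p, d, hp, hchar, hd⟩ := card_eq_pow (F := F)
    have hpf : Fact p.Prime := ⟨hp⟩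
    have hchar' : CharP (AlgebraicClosure F) p := charP_of_injective_algebraMap
      (algebraMap F (AlgebraicClosure F)).injective p
    have hdiv : p ∣ Q := (CharP.cast_eq_zero_iff (AlgebraicClosure F) p Q).1 h.cast
    have hsep := galois_poly_separable (K := AlgebraicClosure F) p Q hdiv
    have hnd := Polynomial.nodup_roots hsep
    have hcard := (IsAlgClosed.splits
      (Polynomial.X ^ Q - Polynomial.X : Polynomial (AlgebraicClosure F))).natDegree_eq_card_roots
    rw [FiniteField.X_pow_card_sub_X_natDegree_eq _ (by omega : 1 < Q)] at hcard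
    have hvinj : Function.Injective (fun u : AlgebraicClosure F => P5 0 0 0 0 u) := by
      intro y y' h
      have := congrFun h 4
      simpa [P5] using this
    have h1 : ((fun u : AlgebraicClosure F => P5 0 0 0 0 u) ''
        ((Polynomial.X ^ Q - Polynomial.X : Polynomial (AlgebraicClosure F)).roots.toFinset :
          Set (AlgebraicClosure F))).ncard = Q := by
      rw [Set.ncard_image_of_injective _ hvinj, Set.ncard_coe_finset,
        Multiset.toFinset_card_of_nodup hnd, ← hcard]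
    refine le_trans hcardN ?_
    conv_lhs => rw [← h1]
    refine Set.ncard_le_ncard ?_ ((fix_finite h).subset fun P hP => hP.1)
    rintro P ⟨u, hu, rfl⟩
    have hu' : u ^ Q = u := by
      rw [Finset.mem_coe, Multiset.mem_toFinset, Polynomial.mem_roots
        (FiniteField.X_pow_card_sub_X_ne_zero _ (by omega : 1 < Q))] at hu
      simpa [Polynomial.IsRoot, sub_eq_zero] using hu
    exact ⟨fixed_label hQ hu', dense_basin h hu'⟩

end Pool.Agent.Results.MP_2dcdad_ag.SeveralLimits
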